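import Pool.Agent.R723.AltStMain

/-!
# The antisymmetric part of St ⊗ St for SL_2 over the algebraic closure of a finite field is simple

Let `F` be an algebraic closure of the prime field with `p` elements (`p` any prime, so `F` is the
algebraic closure of every finite field of characteristic `p`), `G = SL_2(F)` as an abstract group
and `k` any field of characteristic zero.  We prove that the `kG`-module `V_-`, the `k`-span of the
elements `ρ_{x,y}` in `St ⊗ St`, is simple.

The definitions are in `Pool/Agent/R723/AltStDefs.lean`.
-/

namespace Pool.Agent.Results.MP_79d1ba_al.AltSteinbergSimple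

open Pool.Agent.R723.AltSteinberg

universe u v

/-- `V_-`, the span of all `ρ_{x,y}` with `x ≠ y`, as a subrepresentation of `St ⊗ St`. -/
noncomputable def Vminus (F : Type u) [Field F] (k : Type v) [Field k] :
    Subrepresentation (StStRep F k) where
  toSubmodule := VminusSpan F k
  apply_mem_toSubmodule := VminusSpan_stable

/-- `V_-` is a simple `k[SL_2(F)]`-module. -/
theorem result (p : ℕ) [Fact p.Prime] (F : Type u) [Field F] [Algebra (ZMod p) F]
    [IsAlgClosure (ZMod p) F] (k : Type v) [Field k] [CharZero k] :
    (Vminus F k).toRepresentation.IsIrreducible := by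
  have hrho : rho k (0 : F) 1 ∈ (Vminus F k).toSubmodule :=
    Submodule.subset_span ⟨0, 1, zero_ne_one, rfl⟩
  refine { exists_pair_ne := ⟨⊥, ⊤, ?_⟩, eq_bot_or_eq_top := fun W => ?_ }
  · intro h
    have h1 : (⟨rho k 0 1, hrho⟩ : (Vminus F k).toSubmodule) ∈
        (⊥ : Subrepresentation (Vminus F k).toRepresentation).toSubmodule := by
      rw [h]
      exact Submodule.mem_top
    have h2 : (⟨rho k 0 1, hrho⟩ : (Vminus F k).toSubmodule) = 0 := (Submodule.mem_bot k).mp h1
    exact rho_ne_zero (zero_ne_one) (congrArg Subtype.val h2)
  · by_cases hW : W.toSubmodule = ⊥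
    · left
      exact Subrepresentation.toSubmodule_injective hW
    · right
      obtain ⟨w, hwW, hw0⟩ := (Submodule.ne_bot_iff _).mp hW
      apply Subrepresentation.toSubmodule_injective
      change W.toSubmodule = ⊤
      rw [Submodule.eq_top_iff']
      intro r
      have h := Vminus_span p F k w.1 r.1 w.2 r.2 (fun h0 => hw0 (Subtype.ext h0))
      have h3 : Submodule.span k (Set.range fun g : G F => StStRep F k g w.1) ≤
          W.toSubmodule.map (Vminus F k).toSubmodule.subtype := by
        rw [Submodule.span_le]
        rintro _ ⟨g, rfl⟩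
        exact ⟨(Vminus F k).toRepresentation g w, W.apply_mem_toSubmodule g hwW, rfl⟩
      obtain ⟨r', hr', hr''⟩ := h3 h
      have : r' = r := Subtype.ext hr''
      rwa [← this]

end Pool.Agent.Results.MP_79d1ba_al.AltSteinbergSimple
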